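import Mathlib

/-!
# An extension of the AP-avoiding heap game with a denser set of P-positions

The ruleset `M₀ = {{d, 2d} : d ≥ 1}` has an extension `R = M₀ ∪ M'` whose set `A_R` of P-positions
satisfies `A_R(x) / x ^ s → ∞` for every `s < 1`; in particular this holds for
`s = log 2 / log 3`, so the limsup in the question is `∞`.
-/

set_option autoImplicit false

namespace Pool.Agent.Results.MP_c84e26_co.DenserExtension

open Filter Finset

/-- A ruleset is a set of finite nonempty sets of positive integers. -/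
def IsRuleset (R : Set (Finset ℕ)) : Prop :=
  ∀ M ∈ R, M.Nonempty ∧ ∀ m ∈ M, 1 ≤ m

/-- The base ruleset `M₀ = {{d, 2d} : d ≥ 1}`. -/
def baseRuleset : Set (Finset ℕ) :=
  {M | ∃ d : ℕ, 1 ≤ d ∧ M = {d, 2 * d}}

/-- Membership in the set `A_R`, by recursion on `n`: `n ∈ A_R` if and only if there is no `M ∈ R`
with `max M ≤ n` and `{n - m : m ∈ M} ⊆ A_R` (see `isP_iff`; the proof `h` of `n - m < n` only
makes the recursion well-founded, and it exists since `1 ≤ m ≤ n`). -/
def IsP (R : Set (Finset ℕ)) : ℕ → Prop :=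
  WellFounded.fix (C := fun _ => Prop) Nat.lt_wfRel.wf fun n ih =>
    ¬ ∃ M ∈ R, (∀ m ∈ M, m ≤ n) ∧ ∀ m ∈ M, ∃ h : n - m < n, ih (n - m) h

/-- The set `A_R` of P-positions. -/
def pSet (R : Set (Finset ℕ)) : Set ℕ := {n | IsP R n}

open Classical in
/-- The counting function `A_R(x) = #{i ∈ A_R : i < x}`. -/
noncomputable def count (R : Set (Finset ℕ)) (x : ℕ) : ℕ :=
  ((Finset.range x).filter (fun i => i ∈ pSet R)).card

/-- The defining recursion of `A_R` for a ruleset `R`. -/
theorem isP_iff {R : Set (Finset ℕ)} (hR : IsRuleset R) (n : ℕ) :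
    n ∈ pSet R ↔ ¬ ∃ M ∈ R, (∀ m ∈ M, m ≤ n) ∧ ∀ m ∈ M, n - m ∈ pSet R := by
  show IsP R n ↔ _
  rw [IsP, WellFounded.fix_eq]
  refine not_congr ⟨?_, ?_⟩
  · rintro ⟨M, hM, h1, h2⟩
    exact ⟨M, hM, h1, fun m hm => (h2 m hm).2⟩
  · rintro ⟨M, hM, h1, h2⟩
    refine ⟨M, hM, h1, fun m hm => ⟨?_, h2 m hm⟩⟩
    have := (hR M hM).2 m hm
    have := h1 m hm
    omega

/-! ### The target set -/

/-- A largest subset of `{0, …, 4 ^ k - 1}` without 3-term arithmetic progressions. -/
noncomputable def B (k : ℕ) : Finset ℕ := Classical.choose (rothNumberNat_spec (4 ^ k))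

theorem B_spec (k : ℕ) :
    B k ⊆ Finset.range (4 ^ k) ∧ (B k).card = rothNumberNat (4 ^ k) ∧
      ThreeAPFree (B k : Set ℕ) :=
  Classical.choose_spec (rothNumberNat_spec (4 ^ k))

theorem B_lt {k b : ℕ} (hb : b ∈ B k) : b < 4 ^ k :=
  Finset.mem_range.1 ((B_spec k).1 hb)

/-- The target set: `0`, `1` and the blocks `4 ^ (k + 1) + 2 B_k`. -/
def T : Set ℕ := {x | x = 0 ∨ x = 1 ∨ ∃ k b : ℕ, b ∈ B k ∧ x = 4 ^ (k + 1) + 2 * b}

theorem four_pow_succ (k : ℕ) : 4 ^ (k + 1) = 4 * 4 ^ k := by ring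

theorem one_le_four_pow (k : ℕ) : 1 ≤ 4 ^ k := Nat.one_le_pow _ _ (by norm_num)

theorem four_mul_le {j k : ℕ} (h : j < k) : 4 * 4 ^ j ≤ 4 ^ k := by
  have : 4 ^ (j + 1) ≤ 4 ^ k := Nat.pow_le_pow_right (by norm_num) h
  rw [four_pow_succ] at this
  exact this

/-- `0, 1` are the only two consecutive elements of `T`. -/
theorem T_succ {x : ℕ} (h1 : x ∈ T) (h2 : x + 1 ∈ T) : x = 0 := by
  rcases h1 with h | h | ⟨k, b, hb, h⟩
  · exact h
  · subst h
    rcases h2 with h | h | ⟨k, b, hb, h⟩
    · omega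
    · omega
    · have := four_pow_succ k
      have := one_le_four_pow k
      omega
  · have hk := four_pow_succ k
    have hk1 := one_le_four_pow k
    have hb' := B_lt hb
    rcases h2 with h' | h' | ⟨j, c, hc, h'⟩
    · omega
    · omega
    · have hj := four_pow_succ j
      have hj1 := one_le_four_pow j
      have hc' := B_lt hc
      rcases Nat.lt_trichotomy j k with h3 | h3 | h3
      · have := four_mul_le h3
        omega
      · subst h3
        omega
      · have := four_mul_le h3
        omega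

theorem T_noAP {a b c : ℕ} (ha : a ∈ T) (hb : b ∈ T) (hc : c ∈ T) (hab : a < b)
    (h : a + c = b + b) : False := by
  rcases hc with hc | hc | ⟨k, z, hz, hc⟩
  · omega
  · omega
  have hk := four_pow_succ k
  have hk1 := one_le_four_pow k
  have hz' := B_lt hz
  rcases hb with hb | hb | ⟨j, y, hy, hb⟩
  · omega
  · omega
  have hj := four_pow_succ j
  have hj1 := one_le_four_pow j
  have hy' := B_lt hy
  rcases Nat.lt_trichotomy j k with h3 | h3 | h3
  · have := four_mul_le h3
    omega
  · subst h3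
    rcases ha with ha | ha | ⟨i, x, hx, ha⟩
    · omega
    · omega
    · have hi := four_pow_succ i
      have hi1 := one_le_four_pow i
      have hx' := B_lt hx
      rcases Nat.lt_trichotomy i j with h4 | h4 | h4
      · have := four_mul_le h4
        omega
      · subst h4
        have := (B_spec i).2.2 hx hy hz (by omega)
        omega
      · have := four_mul_le h4
        omega
  · have := four_mul_le h3
    omega

/-! ### The extension -/

open Classical in
/-- The reflected initial segment `{n - a : a ∈ T, a < n}`. -/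
noncomputable def refl (n : ℕ) : Finset ℕ :=
  ((Finset.range n).filter (fun a => a ∈ T)).image (fun a => n - a)

theorem mem_refl {n m : ℕ} : m ∈ refl n ↔ ∃ a, a < n ∧ a ∈ T ∧ n - a = m := by
  classical
  simp only [refl, Finset.mem_image, Finset.mem_filter, Finset.mem_range]
  constructor
  · rintro ⟨a, ⟨h1, h2⟩, h3⟩
    exact ⟨a, h1, h2, h3⟩
  · rintro ⟨a, h1, h2, h3⟩
    exact ⟨a, ⟨h1, h2⟩, h3⟩

/-- The added rules. -/
def extra : Set (Finset ℕ) := {M | ∃ n : ℕ, n ∉ T ∧ M = refl n}

theorem zero_mem_T : (0 : ℕ) ∈ T := Or.inl rfl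
theorem one_mem_T : (1 : ℕ) ∈ T := Or.inr (Or.inl rfl)

theorem two_le_of_notMem {n : ℕ} (h : n ∉ T) : 2 ≤ n := by
  by_contra hn
  have : n = 0 ∨ n = 1 := by omega
  rcases this with h' | h'
  · exact h (h' ▸ zero_mem_T)
  · exact h (h' ▸ one_mem_T)

theorem extra_ruleset : IsRuleset extra := by
  rintro M ⟨n, hn, rfl⟩
  have h2 := two_le_of_notMem hn
  refine ⟨⟨n, mem_refl.2 ⟨0, by omega, zero_mem_T, by omega⟩⟩, fun m hm => ?_⟩
  obtain ⟨a, h1, -, h3⟩ := mem_refl.1 hm
  omega

theorem union_ruleset : IsRuleset (baseRuleset ∪ extra) := by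
  rintro M (⟨d, hd, rfl⟩ | hM)
  · refine ⟨⟨d, by simp⟩, fun m hm => ?_⟩
    simp only [Finset.mem_insert, Finset.mem_singleton] at hm
    omega
  · exact extra_ruleset M hM

/-- The P-positions of the extension are exactly the elements of `T`. -/
theorem pSet_eq : pSet (baseRuleset ∪ extra) = T := by
  have key : ∀ n, n ∈ pSet (baseRuleset ∪ extra) ↔ n ∈ T := by
    intro n
    induction n using Nat.strong_induction_on with
    | _ n ih =>
      rw [isP_iff union_ruleset]
      constructor
      · intro h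
        by_contra hn
        apply h
        refine ⟨refl n, Or.inr ⟨n, hn, rfl⟩, fun m hm => ?_, fun m hm => ?_⟩
        · obtain ⟨a, h1, -, h3⟩ := mem_refl.1 hm
          omega
        · obtain ⟨a, h1, h2, h3⟩ := mem_refl.1 hm
          have h4 : n - m = a := by omega
          rw [h4, ih a h1]
          exact h2
      · intro hn
        rintro ⟨M, hM, h1, h2⟩
        have hpos := (union_ruleset M hM).2
        have h2' : ∀ m ∈ M, n - m ∈ T := fun m hm => by
          have h3 := hpos m hm
          have h4 := h1 m hm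
          exact (ih (n - m) (by omega)).1 (h2 m hm)
        rcases hM with ⟨d, hd, rfl⟩ | ⟨n', hn', rfl⟩
        · have e1 := h2' d (by simp)
          have e2 := h2' (2 * d) (by simp)
          have l := h1 (2 * d) (by simp)
          exact T_noAP e2 e1 hn (by omega) (by omega)
        · have h5 := two_le_of_notMem hn'
          have m0 : n' ∈ refl n' := mem_refl.2 ⟨0, by omega, zero_mem_T, by omega⟩
          have m1 : n' - 1 ∈ refl n' := mem_refl.2 ⟨1, by omega, one_mem_T, by omega⟩
          have e0 := h2' _ m0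
          have e1 := h2' _ m1
          have l := h1 _ m0
          have e1' : n - n' + 1 ∈ T := by
            have : n - (n' - 1) = n - n' + 1 := by omega
            rw [← this]
            exact e1
          have := T_succ e0 e1'
          have h6 : n = n' := by omega
          exact hn' (h6 ▸ hn)
  ext n
  exact key n

/-! ### Counting -/

theorem count_mono (R : Set (Finset ℕ)) : Monotone (count R) := by
  classical
  intro x y hxy
  unfold count
  exact Finset.card_le_card (Finset.filter_subset_filter _ (Finset.range_mono hxy))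

theorem count_lower (k : ℕ) :
    rothNumberNat (4 ^ k) ≤ count (baseRuleset ∪ extra) (6 * 4 ^ k) := by
  classical
  rw [← (B_spec k).2.1]
  unfold count
  rw [pSet_eq]
  refine Finset.card_le_card_of_injOn (fun b => 4 ^ (k + 1) + 2 * b) (fun b hb => ?_) ?_
  · have hb' : b ∈ B k := hb
    have h1 := B_lt hb'
    have h2 := four_pow_succ k
    simp only [Finset.coe_filter, Finset.mem_range, Set.mem_ofPred_eq]
    exact ⟨by omega, Or.inr (Or.inr ⟨k, b, hb', rfl⟩)⟩
  · intro a _ b _ hab
    simp only at hab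
    omega

/-- The exponent in the lower bound tends to infinity. -/
theorem tendsto_phi (s : ℝ) (hs : s < 1) :
    Tendsto (fun k : ℕ => (1 / 24 : ℝ) *
      Real.exp ((1 - s) * (k * Real.log 4) - 4 * √(k * Real.log 4))) atTop atTop := by
  have hlog : 0 < Real.log 4 := Real.log_pos (by norm_num)
  have h1 : Tendsto (fun k : ℕ => √((k : ℝ) * Real.log 4)) atTop atTop :=
    Real.tendsto_sqrt_atTop.comp (tendsto_natCast_atTop_atTop.atTop_mul_const hlog)
  have h2 : Tendsto (fun u : ℝ => (1 - s) * u - 4) atTop atTop :=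
    tendsto_atTop_add_const_right _ _ (tendsto_id.const_mul_atTop (by linarith))
  have h3 : Tendsto (fun u : ℝ => u * ((1 - s) * u - 4)) atTop atTop :=
    tendsto_id.atTop_mul_atTop₀ h2
  have h4 : Tendsto (fun k : ℕ => √((k : ℝ) * Real.log 4) *
      ((1 - s) * √((k : ℝ) * Real.log 4) - 4)) atTop atTop := h3.comp h1
  have h5 : (fun k : ℕ => (1 - s) * ((k : ℝ) * Real.log 4) - 4 * √((k : ℝ) * Real.log 4)) =
      fun k : ℕ => √((k : ℝ) * Real.log 4) * ((1 - s) * √((k : ℝ) * Real.log 4) - 4) := by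
    funext k
    have : √((k : ℝ) * Real.log 4) * √((k : ℝ) * Real.log 4) = (k : ℝ) * Real.log 4 :=
      Real.mul_self_sqrt (by positivity)
    linear_combination (-(1 - s)) * this
  refine Tendsto.const_mul_atTop (by norm_num) (Real.tendsto_exp_atTop.comp ?_)
  rw [h5]
  exact h4

/-- Growth: `A_R(x) / x ^ s → ∞` for every `s < 1`. -/
theorem tendsto_count (s : ℝ) (hs : s < 1) :
    Tendsto (fun x : ℕ => (count (baseRuleset ∪ extra) x : ℝ) / (x : ℝ) ^ s) atTop atTop := by
  -- reduce to `s ≥ 0`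
  wlog hs0 : 0 ≤ s generalizing s with H
  · have h0 := H 0 (by norm_num) le_rfl
    refine tendsto_atTop_mono' _ ?_ h0
    filter_upwards [eventually_ge_atTop 1] with x hx
    have hx' : (1 : ℝ) ≤ x := by exact_mod_cast hx
    have hp : (0 : ℝ) < (x : ℝ) ^ s := Real.rpow_pos_of_pos (by linarith) _
    have hle : (x : ℝ) ^ s ≤ 1 := Real.rpow_le_one_of_one_le_of_nonpos hx' (by linarith)
    rw [Real.rpow_zero]
    exact div_le_div_of_nonneg_left (by positivity) hp hle
  -- the lower bound along `x ∈ [6 * 4 ^ k, 6 * 4 ^ (k + 1))`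
  have hk : Tendsto (fun x : ℕ => Nat.log 4 (x / 6)) atTop atTop := by
    refine tendsto_atTop.2 fun b => ?_
    filter_upwards [eventually_ge_atTop (6 * 4 ^ b)] with x hx
    have h1 : 4 ^ b ≤ x / 6 := (Nat.le_div_iff_mul_le (by norm_num)).2 (by omega)
    exact Nat.le_log_of_pow_le (by norm_num) h1
  refine tendsto_atTop_mono' _ ?_ ((tendsto_phi s hs).comp hk)
  filter_upwards [eventually_ge_atTop 6] with x hx
  set k := Nat.log 4 (x / 6) with hkdef
  have hx6 : x / 6 ≠ 0 := by omega
  have h1 : 4 ^ k ≤ x / 6 := Nat.pow_log_le_self 4 hx6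
  have h2 : x / 6 < 4 ^ (k + 1) := Nat.lt_pow_succ_log_self (by norm_num) _
  have h3 : 6 * 4 ^ k ≤ x := by omega
  have h4 : x < 24 * 4 ^ k := by
    have := four_pow_succ k
    omega
  have hc : rothNumberNat (4 ^ k) ≤ count (baseRuleset ∪ extra) x :=
    (count_lower k).trans (count_mono _ h3)
  have hr := Behrend.roth_lower_bound (N := 4 ^ k)
  have hlogk : Real.log ((4 ^ k : ℕ) : ℝ) = k * Real.log 4 := by
    push_cast
    rw [Real.log_pow]
  rw [hlogk] at hr
  have h4k : ((4 ^ k : ℕ) : ℝ) = Real.exp (k * Real.log 4) := by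
    rw [← hlogk, Real.exp_log]
    positivity
  have hxpos : (0 : ℝ) < x := by
    have : 0 < x := by omega
    exact_mod_cast this
  have hxs : (x : ℝ) ^ s ≤ 24 * Real.exp (s * (k * Real.log 4)) := by
    have e1 : (x : ℝ) ≤ 24 * ((4 ^ k : ℕ) : ℝ) := by
      have : x ≤ 24 * 4 ^ k := h4.le
      exact_mod_cast this
    calc (x : ℝ) ^ s ≤ (24 * ((4 ^ k : ℕ) : ℝ)) ^ s := Real.rpow_le_rpow hxpos.le e1 hs0
      _ = 24 ^ s * ((4 ^ k : ℕ) : ℝ) ^ s := Real.mul_rpow (by norm_num) (by positivity)
      _ ≤ 24 * ((4 ^ k : ℕ) : ℝ) ^ s := by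
        refine mul_le_mul_of_nonneg_right ?_ (by positivity)
        calc (24 : ℝ) ^ s ≤ 24 ^ (1 : ℝ) :=
              Real.rpow_le_rpow_of_exponent_le (by norm_num) hs.le
          _ = 24 := Real.rpow_one _
      _ = 24 * Real.exp (s * (k * Real.log 4)) := by
        rw [h4k, ← Real.exp_mul, mul_comm ((k : ℝ) * Real.log 4) s]
  have hxs0 : 0 < (x : ℝ) ^ s := Real.rpow_pos_of_pos hxpos _
  show (1 / 24 : ℝ) * Real.exp ((1 - s) * (k * Real.log 4) - 4 * √(k * Real.log 4)) ≤ _
  rw [le_div_iff₀ hxs0]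
  have hc' : ((4 ^ k : ℕ) : ℝ) * Real.exp (-4 * √(k * Real.log 4)) ≤
      (count (baseRuleset ∪ extra) x : ℝ) := hr.trans (by exact_mod_cast hc)
  refine le_trans ?_ hc'
  calc (1 / 24 : ℝ) * Real.exp ((1 - s) * (k * Real.log 4) - 4 * √(k * Real.log 4)) * (x : ℝ) ^ s
      ≤ (1 / 24 : ℝ) * Real.exp ((1 - s) * (k * Real.log 4) - 4 * √(k * Real.log 4)) *
        (24 * Real.exp (s * (k * Real.log 4))) :=
        mul_le_mul_of_nonneg_left hxs (by positivity)
    _ = Real.exp ((1 - s) * (k * Real.log 4) - 4 * √(k * Real.log 4)) *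
        Real.exp (s * (k * Real.log 4)) := by ring
    _ = ((4 ^ k : ℕ) : ℝ) * Real.exp (-4 * √(k * Real.log 4)) := by
        rw [h4k, ← Real.exp_add, ← Real.exp_add]
        congr 1
        ring

theorem log_two_div_log_three_lt : Real.log 2 / Real.log 3 < 1 := by
  rw [div_lt_one (Real.log_pos (by norm_num))]
  exact Real.log_lt_log (by norm_num) (by norm_num)

/-- **Theorem.** There is an extension `R = M₀ ∪ M'` of the base ruleset
`M₀ = {{d, 2d} : d ≥ 1}`, where `M'` is a set of finite nonempty sets of positive integers, with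
`limsup A_R(x) / x ^ (log 2 / log 3) = ∞`.  Moreover `A_R(x) / x ^ s → ∞` for every `s < 1`. -/
theorem result :
    ∃ M' : Set (Finset ℕ), IsRuleset M' ∧
      Filter.limsup (fun x : ℕ => (((count (baseRuleset ∪ M') x : ℝ) /
        (x : ℝ) ^ (Real.log 2 / Real.log 3) : ℝ) : EReal)) atTop = ⊤ ∧
      ∀ s : ℝ, s < 1 →
        Tendsto (fun x : ℕ => (count (baseRuleset ∪ M') x : ℝ) / (x : ℝ) ^ s) atTop atTop := by
  refine ⟨extra, extra_ruleset, ?_, tendsto_count⟩
  have h := tendsto_count _ log_two_div_log_three_lt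
  exact (EReal.tendsto_coe_nhds_top_iff.2 h).limsup_eq

end Pool.Agent.Results.MP_c84e26_co.DenserExtension
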